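import Pool.Agent.L5helper97.GPA.ZL
import Pool.Agent.Y125.GP.VAR
import Pool.Agent.Y379.GP.Sp
import Pool.Agent.Y125.GP.LSW
import Pool.Agent.Y379.GP.Off
import Pool.Agent.Y545.GP.CR
import Pool.Agent.Y434.GP.RPL
import Pool.Agent.Y891.GP.AFE
import Pool.Agent.Y969.GP.BR5
import Pool.Agent.Y22.GP.Tel
import Pool.Agent.Y155.GP.D1
import Pool.Agent.Y185.GP.HOL
import Pool.Agent.Y319.GP.FB
import Pool.Agent.Y321.GP.FD
import Pool.Agent.Y258.GP.MB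
import Pool.Agent.Y79.GP.ZP
import Pool.Agent.Y180.GP.Mel
import Pool.Agent.Y969.GP.Fin2
import Pool.Agent.Y961.GP.NS
import Pool.Agent.Y232.GP.E1
import Pool.Agent.Y86.GP.CT
import Pool.Agent.Y587.GP.V
import Pool.Agent.Y587.GP.Chi
import Pool.Agent.Y969.GP.Fin3

set_option autoImplicit false

/-! The assembly of project GP. -/

namespace Pool.Agent.L5helper97.GPA

open Pool.Agent.Y969.GP

theorem main : S_MAIN := by
  have hV : S_V := Pool.Agent.Y587.GP.t_V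
  have hSM : S_SM := Pool.Agent.L5helper97.SXA.t_SM
  have hSP : S_SP := Pool.Agent.Y379.GP.t_SP
  have hLSW : S_LSW := Pool.Agent.Y125.GP.t_LSW hSP
  have hCR : S_CR := Pool.Agent.Y545.GP.t_CR hV
  have hAFE : S_AFE := Pool.Agent.Y891.GP.t_AFE hV Pool.Agent.Y587.GP.Chi.t_CHI
  have hVAR : S_VAR := Pool.Agent.Y125.GP.t_VAR hSP hLSW Pool.Agent.Y379.GP.t_OFF hCR
  have hRPL : S_RPL := Pool.Agent.Y434.GP.t_RPL hAFE hSM
  have hTEL : S_TEL := Pool.Agent.Y22.GP.t_TEL Pool.Agent.Y155.GP.t_D1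
  have hTEL2 : S_TEL2 := Pool.Agent.Y22.GP.t_TEL2 Pool.Agent.Y155.GP.t_D2
  have hFD : S_FD := Pool.Agent.Y321.GP.t_FD
  have hFHD : S_FHD := Pool.Agent.Y319.GP.t_FHD hFD
  have hFHC : S_FHC := Pool.Agent.Y319.GP.t_FHC hFD
  have hHOL : S_HOL := Pool.Agent.Y185.GP.t_HOL hFHD hFHC
  have hHOL2 : S_HOL2 := Pool.Agent.Y185.GP.t_HOL2 hFHD hFHC
  have hMB : S_MB := Pool.Agent.Y258.GPMB.t_MB (Pool.Agent.Y319.GP.t_FB hFD) t_ZL Pool.Agent.Y79.GP.t_ZP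
  have hMEL : S_MEL := Pool.Agent.Y180.GP.t_MEL hV
  have hBRW : S_BRW := t_BRW hTEL hTEL2 hHOL hHOL2 hMB hMEL
  have hRRW : S_RRW := t_RRW hTEL2 hHOL hHOL2 hMB
  exact t_MAIN hVAR hRPL hBRW hRRW Pool.Agent.Y961.GP.t_NS (Pool.Agent.Y232.GP.t_E1 hSM)
    (Pool.Agent.Y86.GP.t_CT hV)

end Pool.Agent.L5helper97.GPA
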