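import Pool.Agent.L5helper97.SXA.SecM

set_option autoImplicit false

/-!
Zeta by its partial sum on the lines `Re s = x`, `1/2 ≤ x ≤ 2`, uniformly, and the mean square on these lines.
-/

namespace Pool.Agent.L5helper97.GPA

open Complex Filter Topology MeasureTheory Set

/-- zeta minus its partial sum plus the smooth term -/
noncomputable def DD (N : ℕ) (s : ℂ) : ℂ :=
  riemannZeta s - ∑ n ∈ Finset.Icc 1 N, (n : ℂ) ^ (-s) + (N : ℂ) ^ (1 - s) / (1 - s)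

lemma DD_em {s : ℂ} (hs : 0 < s.re) (hs1 : s ≠ 1) {N : ℕ} (hN : 1 ≤ N) :
    DD N s = -(s * ∫ u in Ioi (N : ℝ), ((Int.fract u - 1 / 2 : ℝ) : ℂ) * (u : ℂ) ^ (-s - 1)) -
      1 / 2 * (N : ℂ) ^ (-s) := by
  have hN0 : (0:ℝ) < N := by exact_mod_cast hN
  have h := Pool.Agent.TH572.Saw.em hs hs1 hN0
  rw [Nat.floor_natCast, Int.fract_natCast, Complex.ofReal_natCast] at h
  rw [h]
  unfold DD
  push_cast
  ring

lemma DD_bd {s : ℂ} (hs : 0 < s.re) (hs1 : s ≠ 1) {N : ℕ} (hN : 1 ≤ N) :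
    ‖DD N s‖ ≤ (‖s‖ / s.re + 1) * (N : ℝ) ^ (-s.re) := by
  have hN0 : (0:ℝ) < N := by exact_mod_cast hN
  have hNpos : 0 < N := hN
  rw [DD_em hs hs1 hN]
  have h1 : ‖∫ u in Ioi (N : ℝ), ((Int.fract u - 1 / 2 : ℝ) : ℂ) * (u : ℂ) ^ (-s - 1)‖ ≤
      (N : ℝ) ^ (-s.re) / s.re := by
    have h2 : ∫ u in Ioi (N : ℝ), u ^ (-s.re - 1) = (N : ℝ) ^ (-s.re) / s.re := by
      rw [integral_Ioi_rpow_of_lt (by linarith) hN0]
      rw [show -s.re - 1 + 1 = -s.re by ring, div_neg, neg_div, neg_neg]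
    rw [← h2]
    refine norm_integral_le_of_norm_le ((integrableOn_Ioi_rpow_of_lt (by linarith) hN0)) ?_
    refine (ae_restrict_iff' measurableSet_Ioi).2 (ae_of_all _ fun u hu => ?_)
    have hu0 : 0 < u := hN0.trans hu
    rw [norm_mul, Complex.norm_real, Complex.norm_cpow_eq_rpow_re_of_pos hu0]
    have e1 : (-s - 1).re = -s.re - 1 := by simp
    rw [e1]
    have h3 : ‖Int.fract u - 1 / 2‖ ≤ 1 := by
      rw [Real.norm_eq_abs, abs_le]
      have := Int.fract_nonneg u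
      have := Int.fract_lt_one u
      constructor <;> linarith
    calc ‖Int.fract u - 1 / 2‖ * u ^ (-s.re - 1) ≤ 1 * u ^ (-s.re - 1) := by gcongr
      _ = _ := one_mul _
  have h4 : ‖(N : ℂ) ^ (-s)‖ = (N : ℝ) ^ (-s.re) := by
    rw [Complex.norm_natCast_cpow_of_pos hNpos, Complex.neg_re]
  refine (norm_sub_le _ _).trans ?_
  rw [norm_neg, norm_mul, norm_mul, h4]
  have h5 : ‖(1 / 2 : ℂ)‖ ≤ 1 := by norm_num
  have h6 : 0 ≤ (N : ℝ) ^ (-s.re) := Real.rpow_nonneg hN0.le _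
  calc ‖s‖ * ‖∫ u in Ioi (N : ℝ), ((Int.fract u - 1 / 2 : ℝ) : ℂ) * (u : ℂ) ^ (-s - 1)‖ +
        ‖(1 / 2 : ℂ)‖ * (N : ℝ) ^ (-s.re)
      ≤ ‖s‖ * ((N : ℝ) ^ (-s.re) / s.re) + 1 * (N : ℝ) ^ (-s.re) := by gcongr
    _ = (‖s‖ / s.re + 1) * (N : ℝ) ^ (-s.re) := by field_simp

lemma DD_tendsto {s : ℂ} (hs : 0 < s.re) (hs1 : s ≠ 1) : Tendsto (fun N : ℕ => DD N s) atTop (𝓝 0) := by
  rw [tendsto_zero_iff_norm_tendsto_zero]
  have h1 : Tendsto (fun N : ℕ => (‖s‖ / s.re + 1) * (N : ℝ) ^ (-s.re)) atTop (𝓝 0) := by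
    have h2 := (tendsto_rpow_neg_atTop hs).comp (tendsto_natCast_atTop_atTop (R := ℝ))
    simpa using h2.const_mul (‖s‖ / s.re + 1)
  refine squeeze_zero' (Eventually.of_forall fun _ => norm_nonneg _) ?_ h1
  filter_upwards [eventually_ge_atTop 1] with N hN
  exact DD_bd hs hs1 hN

lemma int_step {s : ℂ} (hs1 : s ≠ 1) {N : ℕ} (hN : 1 ≤ N) :
    ∫ u in (N : ℝ)..((N + 1 : ℕ) : ℝ), (u : ℂ) ^ (-s) =
      (((N + 1 : ℕ) : ℂ) ^ (1 - s) - (N : ℂ) ^ (1 - s)) / (1 - s) := by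
  have hN0 : (0:ℝ) < N := by exact_mod_cast hN
  have h := integral_cpow (a := (N : ℝ)) (b := ((N + 1 : ℕ) : ℝ)) (r := -s) (Or.inr ⟨?_, ?_⟩)
  · rw [h]
    rw [show -s + 1 = 1 - s by ring]
    push_cast
    rfl
  · intro h
    apply hs1
    have := congrArg Neg.neg h
    simpa using this
  · rw [uIcc_of_le (by push_cast; linarith)]
    intro h
    linarith [h.1]

lemma DD_step {s : ℂ} (hs1 : s ≠ 1) {N : ℕ} (hN : 1 ≤ N) :
    DD N s - DD (N + 1) s = ((N + 1 : ℕ) : ℂ) ^ (-s) - ∫ u in (N : ℝ)..((N + 1 : ℕ) : ℝ), (u : ℂ) ^ (-s) := by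
  rw [int_step hs1 hN]
  unfold DD
  rw [Finset.sum_Icc_succ_top (by omega)]
  ring

/-- the increments on the line `x` against those on the line `1/2` -/
lemma step_cmp {x u : ℝ} (hx : 1 / 2 ≤ x) (hu : 0 < u) {N : ℕ} (hN : 1 ≤ N) :
    ‖(DD N (x + I * u) - DD (N + 1) (x + I * u)) - (((N + 1 : ℕ) : ℝ) ^ (-(x - 1 / 2)) : ℝ) *
      (DD N (1 / 2 + I * u) - DD (N + 1) (1 / 2 + I * u))‖ ≤
      (N : ℝ) ^ (-(1 / 2) : ℝ) * ((N : ℝ) ^ (-(x - 1 / 2)) - ((N + 1 : ℕ) : ℝ) ^ (-(x - 1 / 2))) := by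
  set δ : ℝ := x - 1 / 2 with hδ
  have hδ0 : 0 ≤ δ := by rw [hδ]; linarith
  have hN0 : (0:ℝ) < N := by exact_mod_cast hN
  have hN1 : (0:ℝ) < ((N + 1 : ℕ) : ℝ) := by positivity
  have hle : (N : ℝ) ≤ ((N + 1 : ℕ) : ℝ) := by push_cast; linarith
  have ne1 : ((x : ℂ) + I * u) ≠ 1 := by
    intro h
    have := congrArg Complex.im h
    simp at this
    exact hu.ne' this
  have ne2 : ((1 / 2 : ℂ) + I * u) ≠ 1 := by
    intro h
    have := congrArg Complex.im h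
    simp at this
    exact hu.ne' this
  rw [DD_step ne1 hN, DD_step ne2 hN]
  have es : ∀ w : ℝ, 0 < w → (w : ℂ) ^ (-((x : ℂ) + I * u)) = ((w ^ (-δ) : ℝ) : ℂ) * (w : ℂ) ^ (-((1 / 2 : ℂ) + I * u)) := by
    intro w hw
    have hw0 : (w : ℂ) ≠ 0 := by exact_mod_cast hw.ne'
    rw [Complex.ofReal_cpow hw.le, ← Complex.cpow_add _ _ hw0]
    congr 1
    rw [hδ]; push_cast; ring
  have e1 : ((N + 1 : ℕ) : ℂ) ^ (-((x : ℂ) + I * u)) = ((((N + 1 : ℕ) : ℝ) ^ (-δ) : ℝ) : ℂ) *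
      ((N + 1 : ℕ) : ℂ) ^ (-((1 / 2 : ℂ) + I * u)) := by
    have := es ((N + 1 : ℕ) : ℝ) hN1
    simpa using this
  have hi0 : ∀ w ∈ Icc (N:ℝ) ((N + 1 : ℕ) : ℝ), 0 < w := fun w hw => hN0.trans_le hw.1
  have c1 : ContinuousOn (fun w : ℝ => (w : ℂ) ^ (-((x : ℂ) + I * u))) (Icc (N:ℝ) ((N + 1 : ℕ) : ℝ)) := by
    intro w hw
    refine ContinuousAt.continuousWithinAt ?_
    refine ContinuousAt.cpow (Complex.continuous_ofReal.continuousAt) continuousAt_const ?_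
    exact Or.inl (by simpa using hi0 w hw)
  have c2 : ContinuousOn (fun w : ℝ => (w : ℂ) ^ (-((1 / 2 : ℂ) + I * u))) (Icc (N:ℝ) ((N + 1 : ℕ) : ℝ)) := by
    intro w hw
    refine ContinuousAt.continuousWithinAt ?_
    refine ContinuousAt.cpow (Complex.continuous_ofReal.continuousAt) continuousAt_const ?_
    exact Or.inl (by simpa using hi0 w hw)
  have i1 : IntervalIntegrable (fun w : ℝ => (w : ℂ) ^ (-((x : ℂ) + I * u))) volume (N:ℝ) ((N + 1 : ℕ) : ℝ) :=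
    ContinuousOn.intervalIntegrable (by rwa [uIcc_of_le hle])
  have i2 : IntervalIntegrable (fun w : ℝ => (w : ℂ) ^ (-((1 / 2 : ℂ) + I * u))) volume (N:ℝ) ((N + 1 : ℕ) : ℝ) :=
    ContinuousOn.intervalIntegrable (by rwa [uIcc_of_le hle])
  have e2 : (((N + 1 : ℕ) : ℂ) ^ (-((x : ℂ) + I * u)) - ∫ w in (N : ℝ)..((N + 1 : ℕ) : ℝ), (w : ℂ) ^ (-((x : ℂ) + I * u))) -
      (((((N + 1 : ℕ) : ℝ) ^ (-δ) : ℝ)) : ℂ) * (((N + 1 : ℕ) : ℂ) ^ (-((1 / 2 : ℂ) + I * u)) -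
        ∫ w in (N : ℝ)..((N + 1 : ℕ) : ℝ), (w : ℂ) ^ (-((1 / 2 : ℂ) + I * u))) =
      ∫ w in (N : ℝ)..((N + 1 : ℕ) : ℝ), ((((((N + 1 : ℕ) : ℝ) ^ (-δ) : ℝ)) : ℂ) * (w : ℂ) ^ (-((1 / 2 : ℂ) + I * u)) -
        (w : ℂ) ^ (-((x : ℂ) + I * u))) := by
    rw [intervalIntegral.integral_sub (i2.const_mul _) i1, intervalIntegral.integral_const_mul, e1]
    ring
  rw [e2]
  have hb : ∀ w ∈ uIoc (N : ℝ) ((N + 1 : ℕ) : ℝ), ‖((((((N + 1 : ℕ) : ℝ) ^ (-δ) : ℝ)) : ℂ) * (w : ℂ) ^ (-((1 / 2 : ℂ) + I * u)) -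
        (w : ℂ) ^ (-((x : ℂ) + I * u)))‖ ≤ (N : ℝ) ^ (-(1 / 2) : ℝ) * ((N : ℝ) ^ (-δ) - ((N + 1 : ℕ) : ℝ) ^ (-δ)) := by
    intro w hw
    rw [uIoc_of_le hle] at hw
    have hw0 : 0 < w := hN0.trans hw.1
    rw [es w hw0, ← sub_mul, norm_mul, ← Complex.ofReal_sub, Complex.norm_real,
      Complex.norm_cpow_eq_rpow_re_of_pos hw0]
    have e3 : (-((1 / 2 : ℂ) + I * u)).re = -(1 / 2) := by simp
    rw [e3, Real.norm_eq_abs, mul_comm]
    have a1 : w ^ (-(1 / 2) : ℝ) ≤ (N : ℝ) ^ (-(1 / 2) : ℝ) :=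
      Real.rpow_le_rpow_of_nonpos hN0 hw.1.le (by norm_num)
    have a2 : ((N + 1 : ℕ) : ℝ) ^ (-δ) ≤ w ^ (-δ) :=
      Real.rpow_le_rpow_of_nonpos hw0 hw.2 (by linarith)
    have a3 : w ^ (-δ) ≤ (N : ℝ) ^ (-δ) :=
      Real.rpow_le_rpow_of_nonpos hN0 hw.1.le (by linarith)
    have a4 : |((N + 1 : ℕ) : ℝ) ^ (-δ) - w ^ (-δ)| ≤ (N : ℝ) ^ (-δ) - ((N + 1 : ℕ) : ℝ) ^ (-δ) := by
      rw [abs_sub_comm, abs_of_nonneg (by linarith)]
      linarith
    exact mul_le_mul a1 a4 (abs_nonneg _) (Real.rpow_nonneg hN0.le _)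
  have := intervalIntegral.norm_integral_le_of_norm_le_const hb
  refine this.trans (le_of_eq ?_)
  push_cast
  rw [show (N:ℝ) + 1 - N = 1 by ring, abs_one, mul_one]

/-- the bound on the line `1/2` -/
lemma DD_half {u : ℝ} (hu : 0 < u) {N : ℕ} (hN : 1 ≤ N) (huN : u ≤ N) :
    ‖DD N (1 / 2 + I * u)‖ ≤ 3 / (2 * Real.sqrt N) := by
  have hX0 : (0 : ℝ) < N := by exact_mod_cast hN
  set q := Real.sqrt N with hq
  have hq0 : 0 < q := Real.sqrt_pos.2 hX0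
  have hs : Pool.Agent.TH158.FM.pt (1 / 2) u = 1 / 2 + I * (u : ℂ) := by
    unfold Pool.Agent.TH158.FM.pt; push_cast; ring
  have hsaw := Pool.Agent.TH158.FM.saw_all u N hX0
  rw [Nat.floor_natCast, Int.fract_natCast, hs] at hsaw
  rw [Complex.ofReal_natCast] at hsaw
  set s : ℂ := 1 / 2 + I * (u : ℂ) with hsd
  have hre : s.re = 1 / 2 := by simp [hsd]
  have hlim : ‖riemannZeta s - ∑ n ∈ Finset.Icc 1 N, (n : ℂ) ^ (-s) +
      (N : ℂ) ^ (1 - s) / (1 - s) - ((0 - 1 / 2 : ℝ) : ℂ) * (N : ℂ) ^ (-s)‖ ≤ 1 / q := by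
    refine le_of_tendsto hsaw.norm (Eventually.of_forall fun M => ?_)
    refine (norm_sum_le _ _).trans ?_
    calc ∑ m ∈ Finset.Icc 1 M, ‖Pool.Agent.TH158.FM.TT m N u‖
        ≤ ∑ m ∈ Finset.Icc 1 M, (1 / (2 * q)) * (1 / (m : ℝ) ^ 2) :=
          Finset.sum_le_sum fun m hm => Pool.Agent.TH321.GF.AQ_term u N m hN (Finset.mem_Icc.1 hm).1 hu huN
      _ = (1 / (2 * q)) * ∑ m ∈ Finset.Icc 1 M, 1 / (m : ℝ) ^ 2 := by rw [Finset.mul_sum]
      _ ≤ (1 / (2 * q)) * 2 := by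
          have := Pool.Agent.TH321.GF.AQ_sq' M
          gcongr
      _ = 1 / q := by field_simp
  have n1 : ‖(N : ℂ) ^ (-s)‖ = 1 / q := by
    rw [Complex.norm_natCast_cpow_of_pos hN, Complex.neg_re, hre, Real.rpow_neg hX0.le, hq,
      Real.sqrt_eq_rpow]
    exact (one_div _).symm
  have b3 : ‖((0 - 1 / 2 : ℝ) : ℂ) * (N : ℂ) ^ (-s)‖ = 1 / (2 * q) := by
    rw [norm_mul, n1, Complex.norm_real, Real.norm_eq_abs]
    rw [show |(0 - 1 / 2 : ℝ)| = 1 / 2 by norm_num]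
    field_simp
  have e0 : DD N s = (riemannZeta s - ∑ n ∈ Finset.Icc 1 N, (n : ℂ) ^ (-s) +
      (N : ℂ) ^ (1 - s) / (1 - s) - ((0 - 1 / 2 : ℝ) : ℂ) * (N : ℂ) ^ (-s)) +
      ((0 - 1 / 2 : ℝ) : ℂ) * (N : ℂ) ^ (-s) := by
    unfold DD
    ring
  rw [e0]
  refine (norm_add_le _ _).trans ?_
  rw [b3]
  have e7 : (3 : ℝ) / (2 * q) = 1 / q + 1 / (2 * q) := by field_simp; norm_num
  rw [e7]
  linarith

/-- uniform bound on the lines `x ≥ 1/2` -/
theorem DD_line {x u : ℝ} (hx : 1 / 2 ≤ x) (hu : 0 < u) {N : ℕ} (hN : 1 ≤ N) (huN : u ≤ N) :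
    ‖DD N (x + I * u)‖ ≤ 4 / Real.sqrt N := by
  set δ : ℝ := x - 1 / 2 with hδ
  have hδ0 : 0 ≤ δ := by rw [hδ]; linarith
  have hN0 : (0:ℝ) < N := by exact_mod_cast hN
  set K : ℝ := 3 / (2 * Real.sqrt N) with hK
  set J : ℝ := (N : ℝ) ^ (-(1 / 2) : ℝ) with hJ
  have hJ0 : 0 ≤ J := Real.rpow_nonneg hN0.le _
  have hK0 : 0 ≤ K := by rw [hK]; positivity
  have hJs : J = 1 / Real.sqrt N := by
    rw [hJ, Real.rpow_neg hN0.le, Real.sqrt_eq_rpow]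
    exact (one_div _).symm
  -- monotone powers
  have hp0 : ∀ n : ℕ, N ≤ n → 0 ≤ (n : ℝ) ^ (-δ) := fun n _ => Real.rpow_nonneg (Nat.cast_nonneg n) _
  have hpm : ∀ n : ℕ, N ≤ n → ((n + 1 : ℕ) : ℝ) ^ (-δ) ≤ (n : ℝ) ^ (-δ) := by
    intro n hn
    have hn0 : (0:ℝ) < n := by exact_mod_cast (by omega : 0 < n)
    exact Real.rpow_le_rpow_of_nonpos hn0 (by push_cast; linarith) (by linarith)
  have hp1 : (N : ℝ) ^ (-δ) ≤ 1 := by
    have h1 : (1:ℝ) ≤ N := by exact_mod_cast hN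
    exact Real.rpow_le_one_of_one_le_of_nonpos h1 (by linarith)
  have ha : ∀ n : ℕ, N ≤ n → ‖DD n (1 / 2 + I * u)‖ ≤ K := by
    intro n hn
    have hNn : (N : ℝ) ≤ n := by exact_mod_cast hn
    refine (DD_half hu (hN.trans hn) (huN.trans hNn)).trans ?_
    rw [hK]
    have : Real.sqrt N ≤ Real.sqrt n := Real.sqrt_le_sqrt hNn
    have h0 : 0 < Real.sqrt N := Real.sqrt_pos.2 hN0
    gcongr
  -- the telescoping identity
  have key : ∀ m : ℕ, ‖(DD N (x + I * u) - DD (N + m) (x + I * u)) + (((N + m : ℕ) : ℝ) ^ (-δ) : ℝ) * DD (N + m) (1 / 2 + I * u)‖ ≤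
      (N : ℝ) ^ (-δ) * K + (K + J) * ((N : ℝ) ^ (-δ) - ((N + m : ℕ) : ℝ) ^ (-δ)) := by
    intro m
    induction m with
    | zero =>
      simp only [add_zero, sub_self, zero_add, mul_zero]
      rw [norm_mul, Complex.norm_real, Real.norm_eq_abs, abs_of_nonneg (hp0 N le_rfl)]
      exact mul_le_mul_of_nonneg_left (ha N le_rfl) (hp0 N le_rfl)
    | succ m ih =>
      set M : ℕ := N + m with hM
      have hNM : N ≤ M := by omega
      have hM1 : 1 ≤ M := hN.trans hNM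
      have hs := step_cmp hx hu hM1
      rw [← hδ] at hs
      have e1 : (DD N (x + I * u) - DD (N + (m + 1)) (x + I * u)) +
          (((N + (m + 1) : ℕ) : ℝ) ^ (-δ) : ℝ) * DD (N + (m + 1)) (1 / 2 + I * u) =
          ((DD N (x + I * u) - DD M (x + I * u)) + (((M : ℕ) : ℝ) ^ (-δ) : ℝ) * DD M (1 / 2 + I * u)) +
          ((DD M (x + I * u) - DD (M + 1) (x + I * u)) - (((M + 1 : ℕ) : ℝ) ^ (-δ) : ℝ) *
            (DD M (1 / 2 + I * u) - DD (M + 1) (1 / 2 + I * u))) +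
          ((((M + 1 : ℕ) : ℝ) ^ (-δ) - (M : ℝ) ^ (-δ) : ℝ) : ℂ) * DD M (1 / 2 + I * u) := by
        rw [show N + (m + 1) = M + 1 by omega]
        push_cast
        ring
      rw [e1]
      refine (norm_add_le _ _).trans ?_
      refine (add_le_add ((norm_add_le _ _).trans (add_le_add ih hs)) (le_refl _)).trans ?_
      have b1 : ‖((((M + 1 : ℕ) : ℝ) ^ (-δ) - (M : ℝ) ^ (-δ) : ℝ) : ℂ) * DD M (1 / 2 + I * u)‖ ≤
          ((M : ℝ) ^ (-δ) - ((M + 1 : ℕ) : ℝ) ^ (-δ)) * K := by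
        rw [norm_mul, Complex.norm_real, Real.norm_eq_abs, abs_sub_comm, abs_of_nonneg (by linarith [hpm M hNM])]
        exact mul_le_mul_of_nonneg_left (ha M hNM) (by linarith [hpm M hNM])
      have b2 : (M : ℝ) ^ (-(1 / 2) : ℝ) ≤ J :=
        Real.rpow_le_rpow_of_nonpos hN0 (by exact_mod_cast hNM) (by norm_num)
      have b3 : (M : ℝ) ^ (-(1 / 2) : ℝ) * ((M : ℝ) ^ (-δ) - ((M + 1 : ℕ) : ℝ) ^ (-δ)) ≤
          J * ((M : ℝ) ^ (-δ) - ((M + 1 : ℕ) : ℝ) ^ (-δ)) :=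
        mul_le_mul_of_nonneg_right b2 (by linarith [hpm M hNM])
      rw [show N + (m + 1) = M + 1 by omega]
      nlinarith
  have key2 : ∀ m : ℕ, ‖DD N (x + I * u) - DD (N + m) (x + I * u)‖ ≤ 2 * K + J := by
    intro m
    have h1 := key m
    have hNM : N ≤ N + m := by omega
    have h2 : ‖((((N + m : ℕ) : ℝ) ^ (-δ) : ℝ) : ℂ) * DD (N + m) (1 / 2 + I * u)‖ ≤ ((N + m : ℕ) : ℝ) ^ (-δ) * K := by
      rw [norm_mul, Complex.norm_real, Real.norm_eq_abs, abs_of_nonneg (hp0 _ hNM)]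
      exact mul_le_mul_of_nonneg_left (ha _ hNM) (hp0 _ hNM)
    have h3 : ‖DD N (x + I * u) - DD (N + m) (x + I * u)‖ ≤
        ‖(DD N (x + I * u) - DD (N + m) (x + I * u)) + ((((N + m : ℕ) : ℝ) ^ (-δ) : ℝ) : ℂ) * DD (N + m) (1 / 2 + I * u)‖ +
        ‖((((N + m : ℕ) : ℝ) ^ (-δ) : ℝ) : ℂ) * DD (N + m) (1 / 2 + I * u)‖ := by
      have := norm_sub_le ((DD N (x + I * u) - DD (N + m) (x + I * u)) + ((((N + m : ℕ) : ℝ) ^ (-δ) : ℝ) : ℂ) * DD (N + m) (1 / 2 + I * u))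
        (((((N + m : ℕ) : ℝ) ^ (-δ) : ℝ) : ℂ) * DD (N + m) (1 / 2 + I * u))
      simpa using this
    have h4 := hp0 (N + m) hNM
    have h5 := hp0 N le_rfl
    have h6 : (N : ℝ) ^ (-δ) * K ≤ 1 * K := mul_le_mul_of_nonneg_right hp1 hK0
    have h7 : J * (N : ℝ) ^ (-δ) ≤ J * 1 := mul_le_mul_of_nonneg_left hp1 hJ0
    have h8 : 0 ≤ J * ((N + m : ℕ) : ℝ) ^ (-δ) := mul_nonneg hJ0 h4
    nlinarith
  have ne1 : ((x : ℂ) + I * u) ≠ 1 := by
    intro h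
    have := congrArg Complex.im h
    simp at this
    exact hu.ne' this
  have hre : 0 < ((x : ℂ) + I * u).re := by simp; linarith
  have ht : Tendsto (fun m : ℕ => ‖DD N (x + I * u) - DD (N + m) (x + I * u)‖) atTop (𝓝 ‖DD N (x + I * u) - 0‖) := by
    refine (tendsto_const_nhds.sub ?_).norm
    exact (DD_tendsto hre ne1).comp (tendsto_add_atTop_nat N |>.congr fun m => by omega)
  rw [sub_zero] at ht
  refine (le_of_tendsto ht (Eventually.of_forall key2)).trans (le_of_eq ?_)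
  rw [hJs, hK]
  have h0 : 0 < Real.sqrt N := Real.sqrt_pos.2 hN0
  field_simp
  norm_num

lemma zeta_cont_line (x : ℝ) : ContinuousOn (fun v : ℝ => riemannZeta (x + I * v)) (Ioi 0) := by
  intro v hv
  have h1 : ((x : ℂ) + I * (v : ℂ)) ≠ 1 := by
    intro h
    have := congrArg Complex.im h
    simp at this
    exact (ne_of_gt hv) this
  have h2 := (differentiableAt_riemannZeta h1).continuousAt
  exact (ContinuousAt.comp (f := fun u : ℝ => ((x : ℂ) + I * (u : ℂ))) h2 (by fun_prop)).continuousWithinAt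

theorem line_large {κ : ℝ} (hκ : 0 < κ) : ∃ C : ℝ, 0 < C ∧ ∀ x T : ℝ, 1 / 2 ≤ x → 2 ≤ T →
    (∫ v in (1 : ℝ)..T, ‖riemannZeta (x + I * v)‖ ^ 2 ≤ C * T ^ (1 + κ)) := by
  obtain ⟨C, hC, hMV⟩ := Pool.Agent.TH928.GS.t_MV
  refine ⟨3 * (C * (4 + 1 / κ)) + 54, by positivity, fun x T hx hT => ?_⟩
  have hTp : 0 < T := by linarith
  set X : ℕ := ⌈T⌉₊ with hX
  have hX1 : T ≤ X := Nat.le_ceil _
  have hX2 : (X : ℝ) ≤ 2 * T := by
    have := (Nat.ceil_lt_add_one hTp.le).le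
    rw [← hX] at this
    linarith
  have hXpos : (0:ℝ) < X := by linarith
  have hX1' : 1 ≤ X := by
    have : 0 < X := by exact_mod_cast hXpos
    omega
  have hXr1 : (1:ℝ) ≤ X := by exact_mod_cast hX1'
  -- the polynomial
  set a : ℕ → ℂ := fun n => (n : ℂ) ^ (-(x : ℂ)) with ha
  set P : ℝ → ℂ := fun v => ∑ n ∈ Finset.Icc 1 X, a n * (n : ℂ) ^ (-(I * (v : ℂ))) with hP
  have hPeq : ∀ v : ℝ, ∑ n ∈ Finset.Icc 1 X, (n : ℂ) ^ (-((x : ℂ) + I * v)) = P v := by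
    intro v
    rw [hP]
    refine Finset.sum_congr rfl fun n hn => ?_
    have hn0 : (n : ℂ) ≠ 0 := by
      have := (Finset.mem_Icc.1 hn).1
      exact_mod_cast (by omega : n ≠ 0)
    simp only [ha]
    rw [← Complex.cpow_add _ _ hn0]
    congr 1
    ring
  have hPc : Continuous P := by
    rw [hP]
    refine continuous_finsetSum _ fun n hn => continuous_const.mul ?_
    have hn0 : (n : ℂ) ≠ 0 := by
      have := (Finset.mem_Icc.1 hn).1
      exact_mod_cast (by omega : n ≠ 0)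
    exact Continuous.const_cpow (by fun_prop) (Or.inl hn0)
  have hpt : ∀ v ∈ Icc (1:ℝ) T, ‖riemannZeta (x + I * v)‖ ^ 2 ≤ 3 * ‖P v‖ ^ 2 + (6 * T * (1 / v ^ 2) + 48 / T) := by
    intro v hv
    have hv0 : 0 < v := by linarith [hv.1]
    have h1 := DD_line hx hv0 hX1' (hv.2.trans hX1)
    unfold DD at h1
    rw [hPeq] at h1
    have hs1n : v ≤ ‖1 - ((x : ℂ) + I * v)‖ := by
      have h1 := Complex.abs_im_le_norm (1 - ((x : ℂ) + I * v))
      have h2 : (1 - ((x : ℂ) + I * v)).im = -v := by simp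
      rwa [h2, abs_neg, abs_of_nonneg hv0.le] at h1
    have n2 : ‖(X : ℂ) ^ (1 - ((x : ℂ) + I * v))‖ ≤ Real.sqrt X := by
      rw [Complex.norm_natCast_cpow_of_pos (by omega : 0 < X), Real.sqrt_eq_rpow]
      refine Real.rpow_le_rpow_of_exponent_le hXr1 ?_
      simp
      linarith
    have b2 : ‖(X : ℂ) ^ (1 - ((x : ℂ) + I * v)) / (1 - ((x : ℂ) + I * v))‖ ≤ Real.sqrt X / v := by
      rw [norm_div]
      exact div_le_div₀ (Real.sqrt_nonneg _) n2 hv0 hs1n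
    have h3 : ‖riemannZeta (x + I * v)‖ ≤ ‖P v‖ + Real.sqrt X / v + 4 / Real.sqrt X := by
      have e : riemannZeta (x + I * v) = P v - (X : ℂ) ^ (1 - ((x : ℂ) + I * v)) / (1 - ((x : ℂ) + I * v)) +
          (riemannZeta (x + I * v) - P v + (X : ℂ) ^ (1 - ((x : ℂ) + I * v)) / (1 - ((x : ℂ) + I * v))) := by ring
      rw [e]
      refine (norm_add_le _ _).trans (add_le_add ?_ h1)
      exact (norm_sub_le _ _).trans (add_le_add le_rfl b2)
    have hs2 : Real.sqrt X ^ 2 = X := Real.sq_sqrt hXpos.le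
    have hs0 : 0 < Real.sqrt X := Real.sqrt_pos.2 hXpos
    have e1 : ‖riemannZeta (x + I * v)‖ ^ 2 ≤ (‖P v‖ + Real.sqrt X / v + 4 / Real.sqrt X) ^ 2 :=
      pow_le_pow_left₀ (norm_nonneg _) h3 2
    have e2 : (‖P v‖ + Real.sqrt X / v + 4 / Real.sqrt X) ^ 2 ≤
        3 * ‖P v‖ ^ 2 + 3 * (Real.sqrt X / v) ^ 2 + 3 * (4 / Real.sqrt X) ^ 2 := by
      nlinarith [sq_nonneg (‖P v‖ - Real.sqrt X / v), sq_nonneg (‖P v‖ - 4 / Real.sqrt X),
        sq_nonneg (Real.sqrt X / v - 4 / Real.sqrt X)]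
    have e3 : 3 * (Real.sqrt X / v) ^ 2 ≤ 6 * T * (1 / v ^ 2) := by
      rw [div_pow, hs2]
      calc 3 * (X / v ^ 2) = 3 * X * (1 / v ^ 2) := by ring
        _ ≤ 6 * T * (1 / v ^ 2) := by
            refine mul_le_mul_of_nonneg_right (by linarith) (by positivity)
    have e4 : 3 * (4 / Real.sqrt X) ^ 2 ≤ 48 / T := by
      rw [div_pow, hs2, mul_div_assoc', div_le_div_iff₀ hXpos hTp]
      nlinarith
    linarith
  have hTT : (1:ℝ) ≤ T := by linarith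
  have hzc : ContinuousOn (fun v : ℝ => ‖riemannZeta (x + I * v)‖ ^ 2) (Icc 1 T) :=
    ((zeta_cont_line x).mono fun v hv => lt_of_lt_of_le one_pos hv.1).norm.pow 2
  have i0 : IntervalIntegrable (fun v : ℝ => ‖riemannZeta (x + I * v)‖ ^ 2) volume 1 T :=
    ContinuousOn.intervalIntegrable (by rwa [uIcc_of_le hTT])
  have hcP : Continuous fun u : ℝ => 3 * ‖P u‖ ^ 2 := continuous_const.mul (hPc.norm.pow 2)
  have i1 : IntervalIntegrable (fun u : ℝ => 3 * ‖P u‖ ^ 2) volume 1 T := hcP.intervalIntegrable _ _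
  have c2 : ContinuousOn (fun v : ℝ => 1 / v ^ 2) (Icc 1 T) := by
    intro v hv
    have hv0 : v ≠ 0 := by linarith [hv.1]
    exact ContinuousAt.continuousWithinAt (continuousAt_const.div (continuousAt_id.pow 2) (by positivity))
  have i2' : IntervalIntegrable (fun v : ℝ => 1 / v ^ 2) volume 1 T :=
    ContinuousOn.intervalIntegrable (by rwa [uIcc_of_le hTT])
  have i2 : IntervalIntegrable (fun v : ℝ => 6 * T * (1 / v ^ 2)) volume 1 T := i2'.const_mul _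
  have i3 : IntervalIntegrable (fun v : ℝ => 6 * T * (1 / v ^ 2) + 48 / T) volume 1 T :=
    i2.add intervalIntegrable_const
  have hmono := intervalIntegral.integral_mono_on hTT i0 (i1.add i3) hpt
  refine hmono.trans ?_
  rw [intervalIntegral.integral_add i1 i3, intervalIntegral.integral_add i2 intervalIntegrable_const,
    intervalIntegral.integral_const_mul, intervalIntegral.integral_const_mul, intervalIntegral.integral_const]
  have hI : ∫ v in (1:ℝ)..T, 1 / v ^ 2 ≤ 1 := by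
    have hFTC : ∫ u in (1:ℝ)..T, 1 / u ^ 2 = (-(T⁻¹)) - (-((1:ℝ)⁻¹)) := by
      apply intervalIntegral.integral_eq_sub_of_hasDerivAt (f := fun u : ℝ => -(u⁻¹))
      · intro u hu
        rw [uIcc_of_le hTT] at hu
        have hu1 : u ≠ 0 := by linarith [hu.1]
        refine (hasDerivAt_inv hu1).neg.congr_deriv ?_
        field_simp
      · exact i2'
    rw [hFTC]
    have : 0 < T⁻¹ := by positivity
    norm_num
    linarith
  have hPi : ∫ v in (1:ℝ)..T, ‖P v‖ ^ 2 ≤ C * (T * (4 + Real.log T)) := by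
    have h1 : ∫ v in (1:ℝ)..T, ‖P v‖ ^ 2 ≤ ∫ v in (0:ℝ)..(2 * T), ‖P v‖ ^ 2 := by
      refine intervalIntegral.integral_mono_interval (by norm_num) hTT (by linarith) ?_ ?_
      · exact ae_of_all _ fun u => by positivity
      · exact (hPc.norm.pow 2).intervalIntegrable _ _
    refine h1.trans ((hMV T X a hTT (by nlinarith)).trans ?_)
    refine mul_le_mul_of_nonneg_left ?_ hC.le
    have g3 : ∀ n ∈ Finset.Icc 1 X, (T + n) * ‖a n‖ ^ 2 ≤ T * (n : ℝ)⁻¹ + 1 := by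
      intro n hn
      have hn0 : 0 < n := (Finset.mem_Icc.1 hn).1
      have hn0' : (0 : ℝ) < n := by exact_mod_cast hn0
      have hn1 : (1 : ℝ) ≤ n := by exact_mod_cast hn0
      have h2 : ‖a n‖ ^ 2 ≤ (n : ℝ)⁻¹ := by
        simp only [ha]
        rw [Complex.norm_natCast_cpow_of_pos hn0, ← Real.rpow_natCast, ← Real.rpow_mul hn0'.le,
          ← Real.rpow_neg_one]
        refine Real.rpow_le_rpow_of_exponent_le hn1 ?_
        simp
        linarith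
      calc (T + n) * ‖a n‖ ^ 2 ≤ (T + n) * (n : ℝ)⁻¹ := by gcongr
        _ = T * (n : ℝ)⁻¹ + 1 := by field_simp
    refine (Finset.sum_le_sum g3).trans ?_
    rw [Finset.sum_add_distrib, ← Finset.mul_sum]
    have g4 : ∑ n ∈ Finset.Icc 1 X, ((n : ℝ))⁻¹ ≤ 1 + Real.log X := by
      have := harmonic_le_one_add_log X
      rw [harmonic_eq_sum_Icc] at this
      push_cast at this
      exact this
    have g5 : Real.log X ≤ 1 + Real.log T := by
      have g8 : Real.log X ≤ Real.log (2 * T) := Real.log_le_log hXpos hX2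
      rw [Real.log_mul (by norm_num) (by linarith)] at g8
      have : Real.log 2 ≤ 1 := by
        have := Real.log_two_lt_d9
        linarith
      linarith
    have g6 : T * ∑ n ∈ Finset.Icc 1 X, ((n : ℝ))⁻¹ ≤ T * (2 + Real.log T) :=
      mul_le_mul_of_nonneg_left (by linarith) (by linarith)
    have g7 : ∑ _n ∈ Finset.Icc 1 X, (1:ℝ) = X := by simp
    rw [g7]
    nlinarith
  have hlogκ : Real.log T ≤ T ^ κ / κ := Real.log_le_rpow_div hTp.le hκ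
  have hTκ : 1 ≤ T ^ κ := Real.one_le_rpow hTT hκ.le
  have hTk : T ^ (1 + κ) = T * T ^ κ := by rw [Real.rpow_add hTp, Real.rpow_one]
  have t1 : 6 * T * ∫ v in (1:ℝ)..T, 1 / v ^ 2 ≤ 6 * T * 1 := mul_le_mul_of_nonneg_left hI (by positivity)
  have t2 : (T - 1) • (48 / T) ≤ 48 := by
    rw [smul_eq_mul, mul_div_assoc', div_le_iff₀ hTp]
    nlinarith
  have t3 : T * (4 + Real.log T) ≤ (4 + 1 / κ) * T ^ (1 + κ) := by
    rw [hTk]
    have : 4 + Real.log T ≤ (4 + 1 / κ) * T ^ κ := by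
      have h1 : T ^ κ / κ = 1 / κ * T ^ κ := by ring
      rw [h1] at hlogκ
      nlinarith
    calc T * (4 + Real.log T) ≤ T * ((4 + 1 / κ) * T ^ κ) := by gcongr
      _ = _ := by ring
  have t4 : 3 * ∫ v in (1:ℝ)..T, ‖P v‖ ^ 2 ≤ 3 * (C * ((4 + 1 / κ) * T ^ (1 + κ))) := by
    have := hPi.trans (mul_le_mul_of_nonneg_left t3 hC.le)
    linarith
  have t5 : 6 * T + 48 ≤ 54 * T ^ (1 + κ) := by
    rw [hTk]
    have : T ≤ T * T ^ κ := le_mul_of_one_le_right hTp.le hTκ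
    nlinarith
  calc _ ≤ 3 * (C * ((4 + 1 / κ) * T ^ (1 + κ))) + (6 * T * 1 + 48) := add_le_add t4 (add_le_add t1 t2)
    _ ≤ 3 * (C * ((4 + 1 / κ) * T ^ (1 + κ))) + 54 * T ^ (1 + κ) := by linarith
    _ = _ := by ring

theorem t_ZL : Pool.Agent.Y969.GP.S_ZL := by
  intro κ hκ
  obtain ⟨C, hC, h⟩ := line_large hκ
  refine ⟨C * 2 ^ (1 + κ), by positivity, fun x T hx _ hT => ?_⟩
  have hTp : 0 < T := by linarith
  have h2 : (2:ℝ) ≤ 2 * T := by linarith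
  have h1 := h x (2 * T) hx h2
  have hm : ∫ v in (1 : ℝ)..T, ‖riemannZeta (x + I * v)‖ ^ 2 ≤ ∫ v in (1 : ℝ)..(2 * T), ‖riemannZeta (x + I * v)‖ ^ 2 := by
    refine intervalIntegral.integral_mono_interval le_rfl hT (by linarith) ?_ ?_
    · exact ae_of_all _ fun u => by positivity
    · have hzc : ContinuousOn (fun v : ℝ => ‖riemannZeta (x + I * v)‖ ^ 2) (Icc 1 (2 * T)) :=
        ((zeta_cont_line x).mono fun v hv => lt_of_lt_of_le one_pos hv.1).norm.pow 2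
      exact ContinuousOn.intervalIntegrable (by rwa [uIcc_of_le (by linarith)])
  refine hm.trans (h1.trans (le_of_eq ?_))
  rw [Real.mul_rpow (by norm_num) hTp.le]
  ring

end Pool.Agent.L5helper97.GPA
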